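import Mathlib
import Pool.Agent.Results.MP_674062_gt.CounterexampleUnderCH
import Pool.Agent.Helper292.ForceCH

set_option autoImplicit false

/-!
# MP_674062_gt, Q1: it is consistent that Split(Λ,Λ) is not preserved under countable unions
-/

namespace Pool.Agent.Results.MP_674062_gt.ConsistentlyNotAdditive

open Pool.Agent.Results.MP_674062_gt.CounterexampleUnderCH

/-- (1) Some notion of forcing forces that `ω₁` is preserved and that the continuum hypothesis
holds. (2) The continuum hypothesis implies that there are countably many sets of reals, all with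
the property Split(Λ,Λ), whose union does not have this property; the union is already the union of
two of them. -/
theorem result :
    (∃ (P : Type) (_ : Preorder P), Nonempty P ∧ ∀ p : P,
      p ∈ Pool.Agent.Helper292.ForceCH.OmegaOnePreserved P ∧
      p ∈ Pool.Agent.Helper292.ForceCH.CHHolds P) ∧
    (Cardinal.aleph 1 = Cardinal.continuum.{0} →
      ∃ X : ℕ → Set ℝ, (∀ n, SplitLL (X n)) ∧ ¬ SplitLL (⋃ n, X n) ∧
        (⋃ n, X n) = X 0 ∪ X 1) := by
  refine ⟨?_, fun hCH => CounterexampleUnderCH.result hCH.symm⟩
  obtain ⟨P, i, h1, h2⟩ := Pool.Agent.Helper292.ForceCH.exists_forcing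
  exact ⟨P, i, h1, fun p => ⟨(h2 p).1, (h2 p).2.2⟩⟩

end Pool.Agent.Results.MP_674062_gt.ConsistentlyNotAdditive
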